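import Pool.Agent.W770.PC.Stms

set_option autoImplicit false

/-!
# PC-det: sum over a class, by the area inequality
-/

open MeasureTheory Set Filter Topology
open scoped ENNReal NNReal

namespace Pool.Agent.W460.PC

open Pool.Agent.W770.PC

theorem wt_nonneg (a : ℕ) {q : ℝ} (hq : 0 ≤ q) : 0 ≤ wt a q := by
  unfold wt
  positivity

theorem wt_meas (a : ℕ) : Measurable (wt a) := by
  unfold wt
  fun_prop

theorem gr_nonneg (g : ℝ × ℝ → ℝ) (x y : ℝ × ℝ) : 0 ≤ gr g x y := by
  unfold gr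
  positivity

theorem cell_meas (a : ℕ) (k : ℕ × ℕ) : MeasurableSet (cell a k) := by
  unfold cell
  exact measurableSet_Icc.prod measurableSet_Icc

theorem det_thm (h1 : S_der) (h2 : S_comp) (h3 : S_cell) (h4 : S_wint) : S_det := by
  intro C
  obtain ⟨K1, hK1, hc⟩ := h2 C
  obtain ⟨C', hC', hw⟩ := h4
  refine ⟨18 * K1 * max C 0 * C', by positivity, ?_⟩
  intro F h hT t a b x hb
  have hsup2 := hT.sup2 t a
  have harea := hT.area t
  have hsm : ContDiff ℝ (⊤ : ℕ∞) (ph F h t) := by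
    have := hT.smF.add (contDiff_const.mul hT.smh : ContDiff ℝ (⊤ : ℕ∞) fun y => t * h y)
    exact this
  obtain ⟨g, hg⟩ : ∃ g, g = ph F h t := ⟨_, rfl⟩
  rw [← hg] at hsup2 harea hsm ⊢
  rcases (KK C g a b).eq_empty_or_nonempty with h0 | ⟨k0, hk0⟩
  · rw [h0, Finset.sum_empty]
    positivity
  have hmem : ∀ k, k ∈ KK C g a b ↔ k ∈ grid a ∧ NN g a k ≤ 1 ∧ 1 ≤ C * NN g a k ∧
      cls b (DD g a k) := by
    intro k
    classical
    unfold KK
    exact Finset.mem_filter
  have hNN0 : ∀ k, 0 ≤ NN g a k := fun k => integral_nonneg (fun y => by unfold hess; positivity)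
  have hCpos : 0 < C := by
    have h5 := ((hmem k0).1 hk0).2.2.1
    by_contra hcon
    push Not at hcon
    nlinarith [hNN0 k0]
  have hmax : max C 0 = C := max_eq_left hCpos.le
  rw [hmax]
  obtain ⟨hd1, hd2, -, -, -, -, -, -, hdet⟩ := h1 g hsm
  -- the integrand
  obtain ⟨f, hf⟩ : ∃ f : ℝ × ℝ → ℝ≥0∞, ∀ y, f y = ENNReal.ofReal (wt a (gr g x y)) *
    ENNReal.ofReal |det2 g y| := ⟨_, fun _ => rfl⟩
  have hfm : Measurable f := by
    have e : f = fun y => ENNReal.ofReal (wt a (gr g x y)) * ENNReal.ofReal |det2 g y| := funext hf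
    rw [e]
    have m1 : Measurable (fun y => gr g x y) := by
      unfold gr
      have := hd1.continuous
      have := hd2.continuous
      exact Continuous.measurable (by fun_prop)
    exact ((wt_meas a).comp m1).ennreal_ofReal.mul hdet.abs.measurable.ennreal_ofReal
  have h4a : (0 : ℝ) < 4 ^ a := by positivity
  -- one cell
  have hone : ∀ k ∈ KK C g a b,
      ENNReal.ofReal (2 ^ b * ((4 ^ a)⁻¹ * wt a (gr g x (cen a k)))) ≤
        ENNReal.ofReal (2 * K1 * (4 ^ a)⁻¹) * ∫⁻ y in cell a k, f y := by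
    intro k hk
    obtain ⟨hk1, hk2, hk3, hk4⟩ := (hmem k).1 hk
    have hcomp := hc g hsm a k (fun y hy => (hsup2 k hk1 y hy).trans (by
      have : C * 4 ^ a * NN g a k ≤ C * 4 ^ a * 1 := mul_le_mul_of_nonneg_left hk2 (by positivity)
      linarith)) x
    have hbb : (2 : ℝ) ^ b ≤ 2 * DD g a k := by
      rcases hk4.2 with h5 | h5
      · omega
      · exact h5.le
    have hw0 : 0 ≤ wt a (gr g x (cen a k)) := wt_nonneg a (gr_nonneg _ _ _)
    have hDD : ENNReal.ofReal (DD g a k) ≤ ∫⁻ y in cell a k, ENNReal.ofReal |det2 g y| := by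
      unfold DD
      rw [integral_eq_lintegral_of_nonneg_ae (Eventually.of_forall fun y => abs_nonneg _)
        hdet.abs.aestronglyMeasurable]
      exact ENNReal.ofReal_toReal_le
    calc ENNReal.ofReal (2 ^ b * ((4 ^ a)⁻¹ * wt a (gr g x (cen a k))))
        ≤ ENNReal.ofReal ((2 * (4 ^ a)⁻¹) * (wt a (gr g x (cen a k)) * DD g a k)) := by
          refine ENNReal.ofReal_le_ofReal ?_
          have := mul_le_mul_of_nonneg_right hbb
            (mul_nonneg (inv_nonneg.2 h4a.le) hw0)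
          refine this.trans (le_of_eq ?_)
          ring
      _ = ENNReal.ofReal (2 * (4 ^ a)⁻¹) * (ENNReal.ofReal (wt a (gr g x (cen a k))) *
            ENNReal.ofReal (DD g a k)) := by
          rw [ENNReal.ofReal_mul (by positivity), ENNReal.ofReal_mul hw0]
      _ ≤ ENNReal.ofReal (2 * (4 ^ a)⁻¹) * (ENNReal.ofReal (wt a (gr g x (cen a k))) *
            ∫⁻ y in cell a k, ENNReal.ofReal |det2 g y|) := by gcongr
      _ = ENNReal.ofReal (2 * (4 ^ a)⁻¹) * ∫⁻ y in cell a k,
            ENNReal.ofReal (wt a (gr g x (cen a k))) * ENNReal.ofReal |det2 g y| := by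
          rw [lintegral_const_mul' _ _ ENNReal.ofReal_ne_top]
      _ ≤ ENNReal.ofReal (2 * (4 ^ a)⁻¹) * ∫⁻ y in cell a k, ENNReal.ofReal K1 * f y := by
          refine mul_le_mul_right (setLIntegral_mono' (cell_meas a k) fun y hy => ?_) _
          rw [hf, ← mul_assoc, ← ENNReal.ofReal_mul hK1]
          exact mul_le_mul_left (ENNReal.ofReal_le_ofReal (hcomp y hy)) _
      _ = ENNReal.ofReal (2 * K1 * (4 ^ a)⁻¹) * ∫⁻ y in cell a k, f y := by
          rw [lintegral_const_mul' _ _ ENNReal.ofReal_ne_top, ← mul_assoc,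
            ← ENNReal.ofReal_mul (by positivity)]
          congr 2
          ring
  -- the area inequality
  have hφ := harea (fun v => ENNReal.ofReal (wt a (|v.1 + x.1| + |v.2 + x.2|))) (by
    have m1 : Measurable (fun v : ℝ × ℝ => |v.1 + x.1| + |v.2 + x.2|) :=
      Continuous.measurable (by fun_prop)
    exact ((wt_meas a).comp m1).ennreal_ofReal)
  have hOm : ∫⁻ y in Om, f y ≤ ENNReal.ofReal C * ENNReal.ofReal (C' * 4 ^ a) := by
    refine le_trans (le_of_eq ?_) (hφ.trans (mul_le_mul_right ((hw a).2 x) _))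
    refine lintegral_congr fun y => ?_
    rw [hf]
    rfl
  have hsum := h3.2.2.2 a (KK C g a b) (by
    intro k hk
    exact ((hmem k).1 hk).1) f hfm
  have hfin : ENNReal.ofReal (2 ^ b * ∑ k ∈ KK C g a b, (4 ^ a)⁻¹ * wt a (gr g x (cen a k))) ≤
      ENNReal.ofReal (18 * K1 * C * C') := by
    rw [Finset.mul_sum, ENNReal.ofReal_sum_of_nonneg (fun k _ => by
      have := wt_nonneg a (gr_nonneg g x (cen a k))
      positivity)]
    calc ∑ k ∈ KK C g a b, ENNReal.ofReal (2 ^ b * ((4 ^ a)⁻¹ * wt a (gr g x (cen a k))))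
        ≤ ∑ k ∈ KK C g a b, ENNReal.ofReal (2 * K1 * (4 ^ a)⁻¹) * ∫⁻ y in cell a k, f y :=
          Finset.sum_le_sum hone
      _ = ENNReal.ofReal (2 * K1 * (4 ^ a)⁻¹) * ∑ k ∈ KK C g a b, ∫⁻ y in cell a k, f y := by
          rw [Finset.mul_sum]
      _ ≤ ENNReal.ofReal (2 * K1 * (4 ^ a)⁻¹) * (9 * ∫⁻ y in Om, f y) := mul_le_mul_right hsum _
      _ ≤ ENNReal.ofReal (2 * K1 * (4 ^ a)⁻¹) * (9 * (ENNReal.ofReal C *
            ENNReal.ofReal (C' * 4 ^ a))) := by gcongr
      _ = ENNReal.ofReal (18 * K1 * C * C') := by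
          have e9 : (9 : ℝ≥0∞) = ENNReal.ofReal 9 := by norm_num
          rw [e9, ← ENNReal.ofReal_mul hCpos.le, ← ENNReal.ofReal_mul (by norm_num),
            ← ENNReal.ofReal_mul (by positivity)]
          congr 1
          field_simp
          ring
  have hle := (ENNReal.ofReal_le_ofReal_iff (by positivity)).1 hfin
  rw [le_div_iff₀ (by positivity), mul_comm]
  exact hle

end Pool.Agent.W460.PC
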