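import Pool.Agent.W770.PC.SphStms

set_option autoImplicit false

/-!
# PC-sd: derivatives of the functions `A + B √(1 - |y|²)`
-/

open MeasureTheory Set Filter Topology
open scoped ENNReal NNReal RealInnerProductSpace

namespace Pool.Agent.W460.PC

open Pool.Agent.W770.PC

/-! ### Degrees -/

theorem deg_pderiv (i : Fin 2) (p : MvPolynomial (Fin 2) ℝ) :
    (MvPolynomial.pderiv i p).totalDegree ≤ p.totalDegree := by
  conv_lhs => rw [MvPolynomial.as_sum p, map_sum]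
  refine (MvPolynomial.totalDegree_finsetSum _ _).trans (Finset.sup_le fun s hs => ?_)
  rw [MvPolynomial.pderiv_monomial]
  refine (MvPolynomial.totalDegree_monomial_le _ _).trans (le_trans ?_
    (MvPolynomial.le_totalDegree hs))
  rw [Finsupp.sum_fintype _ _ (fun _ => rfl), Finsupp.sum_fintype _ _ (fun _ => rfl)]
  refine Finset.sum_le_sum fun j _ => ?_
  simp only [id, Finsupp.coe_tsub, Pi.sub_apply]
  exact Nat.sub_le _ _

/-- the polynomial `1 - |y|²` -/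
noncomputable def Qd : MvPolynomial (Fin 2) ℝ := 1 - MvPolynomial.X 0 ^ 2 - MvPolynomial.X 1 ^ 2

theorem deg_Qd : Qd.totalDegree ≤ 2 := by
  unfold Qd
  refine (MvPolynomial.totalDegree_sub _ _).trans (max_le ?_ ?_)
  · refine (MvPolynomial.totalDegree_sub _ _).trans (max_le ?_ ?_)
    · rw [MvPolynomial.totalDegree_one]
      omega
    · rw [MvPolynomial.totalDegree_X_pow]
  · rw [MvPolynomial.totalDegree_X_pow]

/-- first components after one differentiation -/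
noncomputable def Ta (i : Fin 2) (_A B : MvPolynomial (Fin 2) ℝ) : MvPolynomial (Fin 2) ℝ :=
  MvPolynomial.pderiv i B * Qd - MvPolynomial.X i * B

/-- second components after one differentiation -/
noncomputable def Tb (i : Fin 2) (A _B : MvPolynomial (Fin 2) ℝ) : MvPolynomial (Fin 2) ℝ :=
  MvPolynomial.pderiv i A

theorem deg_Ta (i : Fin 2) (A B : MvPolynomial (Fin 2) ℝ) {D : ℕ} (hB : B.totalDegree ≤ D) :
    (Ta i A B).totalDegree ≤ D + 2 := by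
  unfold Ta
  refine (MvPolynomial.totalDegree_sub _ _).trans (max_le ?_ ?_)
  · refine (MvPolynomial.totalDegree_mul _ _).trans ?_
    have h1 := deg_pderiv i B
    have h2 := deg_Qd
    omega
  · refine (MvPolynomial.totalDegree_mul _ _).trans ?_
    rw [MvPolynomial.totalDegree_X]
    omega

theorem deg_Tb (i : Fin 2) (A B : MvPolynomial (Fin 2) ℝ) {D : ℕ} (hA : A.totalDegree ≤ D) :
    (Tb i A B).totalDegree ≤ D := (deg_pderiv i A).trans hA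

/-- first components after the second differentiation -/
noncomputable def Sa (i : Fin 2) (P Q : MvPolynomial (Fin 2) ℝ) : MvPolynomial (Fin 2) ℝ :=
  Tb i P Q * Qd + MvPolynomial.X i * P

/-- second components after the second differentiation -/
noncomputable def Sb (i : Fin 2) (P Q : MvPolynomial (Fin 2) ℝ) : MvPolynomial (Fin 2) ℝ :=
  Ta i P Q + MvPolynomial.X i * Q

theorem deg_Sa (i : Fin 2) (P Q : MvPolynomial (Fin 2) ℝ) {D : ℕ} (hP : P.totalDegree ≤ D + 2) :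
    (Sa i P Q).totalDegree ≤ D + 4 := by
  unfold Sa
  refine (MvPolynomial.totalDegree_add _ _).trans (max_le ?_ ?_)
  · refine (MvPolynomial.totalDegree_mul _ _).trans ?_
    have h1 := deg_Tb i P Q hP
    have h2 := deg_Qd
    omega
  · refine (MvPolynomial.totalDegree_mul _ _).trans ?_
    rw [MvPolynomial.totalDegree_X]
    omega

theorem deg_Sb (i : Fin 2) (P Q : MvPolynomial (Fin 2) ℝ) {D : ℕ} (hQ : Q.totalDegree ≤ D) :
    (Sb i P Q).totalDegree ≤ D + 4 := by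
  unfold Sb
  refine (MvPolynomial.totalDegree_add _ _).trans (max_le ?_ ?_)
  · have h1 := deg_Ta i P Q hQ
    omega
  · refine (MvPolynomial.totalDegree_mul _ _).trans ?_
    rw [MvPolynomial.totalDegree_X]
    omega

/-! ### Values -/

theorem pf_add (P Q : MvPolynomial (Fin 2) ℝ) (y : ℝ × ℝ) : pf (P + Q) y = pf P y + pf Q y := by
  unfold pf
  rw [map_add]

theorem pf_sub (P Q : MvPolynomial (Fin 2) ℝ) (y : ℝ × ℝ) : pf (P - Q) y = pf P y - pf Q y := by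
  unfold pf
  rw [map_sub]

theorem pf_mul (P Q : MvPolynomial (Fin 2) ℝ) (y : ℝ × ℝ) : pf (P * Q) y = pf P y * pf Q y := by
  unfold pf
  rw [map_mul]

theorem pf_C (t : ℝ) (y : ℝ × ℝ) : pf (MvPolynomial.C t) y = t := by
  unfold pf
  rw [MvPolynomial.eval_C]

theorem pf_X0 (y : ℝ × ℝ) : pf (MvPolynomial.X 0) y = y.1 := by
  unfold pf
  rw [MvPolynomial.eval_X]
  rfl

theorem pf_X1 (y : ℝ × ℝ) : pf (MvPolynomial.X 1) y = y.2 := by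
  unfold pf
  rw [MvPolynomial.eval_X]
  rfl

theorem pf_Qd (y : ℝ × ℝ) : pf Qd y = 1 - y.1 ^ 2 - y.2 ^ 2 := by
  unfold Qd pf
  simp

/-! ### Calculus -/

theorem d1_add (h3 : S_der) {f g : ℝ × ℝ → ℝ} (hf : ContDiff ℝ (⊤ : ℕ∞) f)
    (hg : ContDiff ℝ (⊤ : ℕ∞) g) (y : ℝ × ℝ) :
    d1 (fun z => f z + g z) y = d1 f y + d1 g y :=
  (((h3 f hf).2.2.1 y).add ((h3 g hg).2.2.1 y)).deriv

theorem d2_add (h3 : S_der) {f g : ℝ × ℝ → ℝ} (hf : ContDiff ℝ (⊤ : ℕ∞) f)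
    (hg : ContDiff ℝ (⊤ : ℕ∞) g) (y : ℝ × ℝ) :
    d2 (fun z => f z + g z) y = d2 f y + d2 g y :=
  (((h3 f hf).2.2.2.1 y).add ((h3 g hg).2.2.2.1 y)).deriv

theorem d1_mul (h3 : S_der) {f g : ℝ × ℝ → ℝ} (hf : ContDiff ℝ (⊤ : ℕ∞) f)
    (hg : ContDiff ℝ (⊤ : ℕ∞) g) (y : ℝ × ℝ) :
    d1 (fun z => f z * g z) y = d1 f y * g y + f y * d1 g y :=
  (((h3 f hf).2.2.1 y).mul ((h3 g hg).2.2.1 y)).deriv

theorem d2_mul (h3 : S_der) {f g : ℝ × ℝ → ℝ} (hf : ContDiff ℝ (⊤ : ℕ∞) f)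
    (hg : ContDiff ℝ (⊤ : ℕ∞) g) (y : ℝ × ℝ) :
    d2 (fun z => f z * g z) y = d2 f y * g y + f y * d2 g y :=
  (((h3 f hf).2.2.2.1 y).mul ((h3 g hg).2.2.2.1 y)).deriv

theorem d1_congr (hU : IsOpen U0) {f g : ℝ × ℝ → ℝ} (h : ∀ z ∈ U0, f z = g z) {y : ℝ × ℝ}
    (hy : y ∈ U0) : d1 f y = d1 g y := by
  unfold d1
  apply Filter.EventuallyEq.deriv_eq
  have hc : ContinuousAt (fun u : ℝ => (u, y.2)) y.1 := by fun_prop
  filter_upwards [hc.preimage_mem_nhds (hU.mem_nhds hy)] with u hu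
  exact h _ hu

theorem d2_congr (hU : IsOpen U0) {f g : ℝ × ℝ → ℝ} (h : ∀ z ∈ U0, f z = g z) {y : ℝ × ℝ}
    (hy : y ∈ U0) : d2 f y = d2 g y := by
  unfold d2
  apply Filter.EventuallyEq.deriv_eq
  have hc : ContinuousAt (fun v : ℝ => (y.1, v)) y.2 := by fun_prop
  filter_upwards [hc.preimage_mem_nhds (hU.mem_nhds hy)] with v hv
  exact h _ hv

theorem sf_smooth (h1 : S_hh) (h2 : S_dpf) (A B : MvPolynomial (Fin 2) ℝ) :
    ContDiff ℝ (⊤ : ℕ∞) (sf A B) := (h2 A).1.add ((h2 B).1.mul h1.1)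

theorem d1_sf (h1 : S_hh) (h2 : S_dpf) (h3 : S_der) (A B : MvPolynomial (Fin 2) ℝ) {y : ℝ × ℝ}
    (hy : y ∈ U0) : hh y * d1 (sf A B) y = sf (Ta 0 A B) (Tb 0 A B) y := by
  have e1 : d1 (sf A B) y = d1 (pf A) y + d1 (fun z => pf B z * hh z) y :=
    d1_add h3 (h2 A).1 ((h2 B).1.mul h1.1) y
  rw [d1_mul h3 (h2 B).1 h1.1 y, (h2 A).2.1, (h2 B).2.1] at e1
  obtain ⟨-, q2, q3, -⟩ := h1.2.2.2.1 y hy
  rw [e1]
  unfold sf Ta Tb
  rw [pf_sub, pf_mul, pf_mul, pf_Qd, pf_X0]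
  linear_combination (pf (MvPolynomial.pderiv 0 B) y) * q2 + (pf B y) * q3

theorem d2_sf (h1 : S_hh) (h2 : S_dpf) (h3 : S_der) (A B : MvPolynomial (Fin 2) ℝ) {y : ℝ × ℝ}
    (hy : y ∈ U0) : hh y * d2 (sf A B) y = sf (Ta 1 A B) (Tb 1 A B) y := by
  have e1 : d2 (sf A B) y = d2 (pf A) y + d2 (fun z => pf B z * hh z) y :=
    d2_add h3 (h2 A).1 ((h2 B).1.mul h1.1) y
  rw [d2_mul h3 (h2 B).1 h1.1 y, (h2 A).2.2.1, (h2 B).2.2.1] at e1
  obtain ⟨-, q2, -, q3⟩ := h1.2.2.2.1 y hy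
  rw [e1]
  unfold sf Ta Tb
  rw [pf_sub, pf_mul, pf_mul, pf_Qd, pf_X1]
  linear_combination (pf (MvPolynomial.pderiv 1 B) y) * q2 + (pf B y) * q3

theorem dd1 (h1 : S_hh) (h2 : S_dpf) (h3 : S_der) (P Q : MvPolynomial (Fin 2) ℝ)
    {G : ℝ × ℝ → ℝ} (hG : ContDiff ℝ (⊤ : ℕ∞) G) (h : ∀ z ∈ U0, hh z * G z = sf P Q z)
    {y : ℝ × ℝ} (hy : y ∈ U0) : hh y ^ 3 * d1 G y = sf (Sa 0 P Q) (Sb 0 P Q) y := by
  have e1 := d1_congr h1.2.2.1 h hy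
  rw [d1_mul h3 h1.1 hG y] at e1
  have e2 := h y hy
  have e4 := d1_sf h1 h2 h3 P Q hy
  obtain ⟨-, q2, q3, -⟩ := h1.2.2.2.1 y hy
  have e5 : hh y ^ 3 * d1 G y = hh y * sf (Ta 0 P Q) (Tb 0 P Q) y + y.1 * sf P Q y := by
    linear_combination (hh y ^ 2) * e1 + (hh y) * e4 - (hh y * G y) * q3 + (y.1) * e2
  rw [e5]
  unfold sf Sa Sb
  rw [pf_add, pf_add, pf_mul, pf_mul, pf_mul, pf_Qd, pf_X0]
  linear_combination (pf (Tb 0 P Q) y) * q2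

theorem dd2 (h1 : S_hh) (h2 : S_dpf) (h3 : S_der) (P Q : MvPolynomial (Fin 2) ℝ)
    {G : ℝ × ℝ → ℝ} (hG : ContDiff ℝ (⊤ : ℕ∞) G) (h : ∀ z ∈ U0, hh z * G z = sf P Q z)
    {y : ℝ × ℝ} (hy : y ∈ U0) : hh y ^ 3 * d2 G y = sf (Sa 1 P Q) (Sb 1 P Q) y := by
  have e1 := d2_congr h1.2.2.1 h hy
  rw [d2_mul h3 h1.1 hG y] at e1
  have e2 := h y hy
  have e4 := d2_sf h1 h2 h3 P Q hy
  obtain ⟨-, q2, -, q3⟩ := h1.2.2.2.1 y hy
  have e5 : hh y ^ 3 * d2 G y = hh y * sf (Ta 1 P Q) (Tb 1 P Q) y + y.2 * sf P Q y := by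
    linear_combination (hh y ^ 2) * e1 + (hh y) * e4 - (hh y * G y) * q3 + (y.2) * e2
  rw [e5]
  unfold sf Sa Sb
  rw [pf_add, pf_add, pf_mul, pf_mul, pf_mul, pf_Qd, pf_X1]
  linear_combination (pf (Tb 1 P Q) y) * q2

theorem sd_thm (h1 : S_hh) (h2 : S_dpf) (h3 : S_der) : S_sd := by
  intro D A B hA hB
  have hs := sf_smooth h1 h2 A B
  obtain ⟨s1, s2, -⟩ := h3 (sf A B) hs
  refine ⟨hs, fun t => ⟨?_, ?_⟩, ?_, ?_⟩
  · funext y
    unfold ph sf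
    rw [pf_add, pf_C]
    ring
  · refine (MvPolynomial.totalDegree_add _ _).trans (max_le hB ?_)
    rw [MvPolynomial.totalDegree_C]
    exact Nat.zero_le _
  · refine ⟨Ta 0 A B, Tb 0 A B, Ta 1 A B, Tb 1 A B, ?_, ?_, ?_, ?_, fun y hy =>
      ⟨d1_sf h1 h2 h3 A B hy, d2_sf h1 h2 h3 A B hy⟩⟩
    · have := deg_Ta 0 A B hB; omega
    · have := deg_Tb 0 A B hA; omega
    · have := deg_Ta 1 A B hB; omega
    · have := deg_Tb 1 A B hA; omega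
  · refine ⟨Sa 0 (Ta 0 A B) (Tb 0 A B), Sb 0 (Ta 0 A B) (Tb 0 A B),
      Sa 0 (Ta 1 A B) (Tb 1 A B), Sb 0 (Ta 1 A B) (Tb 1 A B),
      Sa 1 (Ta 1 A B) (Tb 1 A B), Sb 1 (Ta 1 A B) (Tb 1 A B),
      deg_Sa 0 _ _ (deg_Ta 0 A B hB), deg_Sb 0 _ _ (deg_Tb 0 A B hA),
      deg_Sa 0 _ _ (deg_Ta 1 A B hB), deg_Sb 0 _ _ (deg_Tb 1 A B hA),
      deg_Sa 1 _ _ (deg_Ta 1 A B hB), deg_Sb 1 _ _ (deg_Tb 1 A B hA), fun y hy => ⟨?_, ?_, ?_⟩⟩
    · exact dd1 h1 h2 h3 _ _ s1 (fun z hz => d1_sf h1 h2 h3 A B hz) hy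
    · exact dd1 h1 h2 h3 _ _ s2 (fun z hz => d2_sf h1 h2 h3 A B hz) hy
    · exact dd2 h1 h2 h3 _ _ s2 (fun z hz => d2_sf h1 h2 h3 A B hz) hy

end Pool.Agent.W460.PC
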